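import Pool.Agent.N436.DF.Stm

/-!
# Project DF (helper436): the cases A and B1 (owner helper433)
-/

namespace Pool.Agent.N433.DF

open Finset Pool.Agent.N436.DF

variable {V : Type} [DecidableEq V]

lemma two_le_sum {s : Finset V} {g : V → ℤ} (h0 : ∀ x ∈ s, 0 ≤ g x) {x y : V} (hx : x ∈ s)
    (hy : y ∈ s) (hxy : x ≠ y) : g x + g y ≤ ∑ z ∈ s, g z := by
  rw [← Finset.sum_pair hxy]
  refine Finset.sum_le_sum_of_subset_of_nonneg ?_ fun i hi _ => h0 i hi
  intro z hz
  rw [mem_insert, mem_singleton] at hz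
  rcases hz with rfl | rfl
  · exact hx
  · exact hy

lemma one_le_sum {s : Finset V} {g : V → ℤ} (h0 : ∀ x ∈ s, 0 ≤ g x) {x : V} (hx : x ∈ s) :
    g x ≤ ∑ z ∈ s, g z := Finset.single_le_sum h0 hx

lemma r_nn {P : Par} {H : Hub V} (hok : Ok P H) (u v : V) : 0 ≤ H.r u v := by
  rcases hok.r01 u v with h | h <;> omega

lemma nr_ge {P : Par} {H : Hub V} (hok : Ok P H) {X : Finset V} {f : V → Bool} {i : Bool}
    {x v : V} (hx : x ∈ X) (hf : f x = i) (h : H.r x v = 1) : 1 ≤ nr H X f i v := by
  unfold nr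
  rw [← h]
  exact one_le_sum (g := fun x => H.r x v) (fun y _ => r_nn hok y v) (by simp [hx, hf])

lemma nr_ge2 {P : Par} {H : Hub V} (hok : Ok P H) {X : Finset V} {f : V → Bool} {i : Bool}
    {x y v : V} (hx : x ∈ X) (hf : f x = i) (h : H.r x v = 1) (hy : y ∈ X) (hfy : f y = i)
    (h' : H.r y v = 1) (hxy : x ≠ y) : 2 ≤ nr H X f i v := by
  unfold nr
  have := two_le_sum (s := X.filter (fun x => f x = i)) (g := fun x => H.r x v)
    (fun y _ => r_nn hok y v) (x := x) (y := y) (by simp [hx, hf]) (by simp [hy, hfy]) hxy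
  simp only [h, h'] at this
  linarith

/-- the sums over the two colours -/
lemma split {X : Finset V} {f : V → Bool} (g : V → ℤ) :
    ∑ x ∈ X, g x = (∑ x ∈ X with f x = true, g x) + ∑ x ∈ X with f x = false, g x := by
  rw [← Finset.sum_filter_add_sum_filter_not X (fun x => f x = true) g]
  congr 1
  refine Finset.sum_congr ?_ fun _ _ => rfl
  ext x
  simp

lemma g_pos {P : Par} {H : Hub V} {S X : Finset V} {u w : V} (h : Top P H S X u w) :
    0 < rho P H S + 2 * P.b := by
  have := h.mc.hyp S (Finset.Subset.refl S) ⟨u, h.sub h.hu⟩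
  linarith

theorem small (hkr : S_killRho) (hkf : S_KF) (hcaps : S_caps) (hT : S_T) (hf1 : S_force1)
    (hz : S_Z) : S_small := by
  intro V _ P H S X u w top hSX hlt
  have hg := g_pos top
  have hok := top.mc.ok
  have hd := P.hd
  have hab := P.hab
  have hD2 := P.hD2
  have hD1 := P.hD1
  have hDa := P.hDa
  have hb := P.hb
  have hwS : w ∈ S := (mem_sdiff.1 top.hw).1
  have hwX : w ∉ X := (mem_sdiff.1 top.hw).2
  have huS : u ∈ S := top.sub top.hu
  obtain ⟨f, p, hcol, hfu⟩ := hf1 V P H S X u w u w true top top.hu top.hw (Or.inl top.huw)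
  have h1 := hT V P H S X u w f p top hcol
  rw [hSX, Finset.sum_singleton] at h1
  obtain ⟨k0, k1, k2, k3, k4, k5, k6⟩ := hkr V P H X f hok
  obtain ⟨q1, q2, q3, q4, q5, q6⟩ := k2 w
  have hs1 : sav P H X f w < 2 * P.d := by linarith
  have hs2 : sav P H X f w < P.a := by linarith [top.le_a]
  have hn1 : 1 ≤ nr H X f true w := nr_ge hok top.hu hfu top.huw
  have ht1 : t1 H X f w ≤ 1 := by
    by_contra hc
    have h2 := k3 w
    nlinarith
  have ht : t1 H X f w = nr H X f true w + pr H X f true w := rfl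
  have hn1' : nr H X f true w = 1 := by omega
  have hp1 : pr H X f true w = 0 := by omega
  have hp2 : pr H X f false w = 0 := by
    by_contra hc
    have h2 := k4 w hn1
    have h3 : 1 ≤ pr H X f false w := by omega
    have h4 : t1 H X f w = 1 := by omega
    rw [h4] at h2
    have ha : 0 < P.a := by omega
    nlinarith
  -- the kill system at `w`
  obtain ⟨Y, hY, hYne, hYr⟩ := hkf V P H S X f p top.mc top.sub ⟨u, top.hu⟩ hcol
  rw [hSX] at hY
  have hYw : Y = {w} := (Finset.subset_singleton_iff.1 hY).resolve_left hYne.ne_empty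
  subst hYw
  have hdis : Disjoint ({w} : Finset V) X := by
    rw [Finset.disjoint_singleton_left]
    exact hwX
  have h2 := k1 {w} hdis
  rw [← h2] at hYr
  have h3 : rho P (kill H X f) {w} = 2 * wt P (kill H X f) w := by
    unfold rho
    rw [Finset.sum_singleton, Finset.sum_singleton, Finset.sum_singleton]
    have h4 : ew P (kill H X f) w w = 0 := by
      unfold ew
      rw [k0.r0, k0.m0]
      ring
    rw [h4, sub_zero]
  rw [h3] at hYr
  have hc1 : (kill H X f).c true w = -1 := by
    show (if 0 < nr H X f true w then (-1 : ℤ) else _) = -1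
    rw [if_pos (by omega)]
  have hwt : wt P (kill H X f) w = P.b * (kill H X f).c false w := by
    unfold wt
    rw [hc1]
    ring
  rw [hwt] at hYr
  have hc2 : (kill H X f).c false w = if 0 < nr H X f false w then -1 else
      max (-1) (H.c false w - pr H X f true w) := rfl
  have hn2 : 1 ≤ nr H X f false w := by
    by_contra hc
    rw [if_neg (by omega), hp1, sub_zero] at hc2
    have h5 := hcaps V P H S top.mc w hwS false
    have h6 : 0 ≤ (kill H X f).c false w := by
      rw [hc2]
      exact h5.trans (le_max_right _ _)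
    nlinarith
  rw [if_pos (by omega)] at hc2
  rw [hc2] at hwt
  have hsav : sav P H X f w = P.D * (1 + nr H X f false w) - P.a * (H.c true w + 1) -
      P.b * (H.c false w + 1) := by
    have e1 : ∑ x ∈ X, ew P H x w = P.D * (1 + nr H X f false w) := by
      have e2 : ∑ x ∈ X, ew P H x w = P.D * ∑ x ∈ X, H.r x w + P.a * ∑ x ∈ X, H.m x w := by
        unfold ew
        rw [Finset.sum_add_distrib, Finset.mul_sum, Finset.mul_sum]
      have e3 : ∑ x ∈ X, H.r x w = nr H X f true w + nr H X f false w := split _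
      have e4 : ∑ x ∈ X, H.m x w = pr H X f true w + pr H X f false w := split _
      rw [e2, e3, e4, hn1', hp1, hp2]
      ring
    have e5 : sav P H X f w = ∑ x ∈ X, ew P H x w - (wt P H w - wt P (kill H X f) w) := rfl
    rw [e5, e1, hwt]
    unfold wt
    ring
  have hc1w := hok.c1_le w
  have hc2w := hok.c2_le w
  have ha : 0 < P.a := by omega
  have hA1 : P.a * (H.c true w + 1) ≤ P.D - P.d := by
    rw [← hD1]
    exact mul_le_mul_of_nonneg_left (by omega) ha.le
  have hB1 : P.b * (H.c false w + 1) ≤ P.D := by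
    rw [← hD2]
    exact mul_le_mul_of_nonneg_left (by omega) (by omega)
  have hn2' : nr H X f false w = 1 := by
    by_contra hc
    have h5 : 2 ≤ nr H X f false w := by omega
    nlinarith
  rw [hn2'] at hsav
  have hcap1 := hcaps V P H S top.mc w hwS true
  have hcap2 := hcaps V P H S top.mc w hwS false
  have hc1p : 1 ≤ H.c true w := by
    by_contra hc
    have h5 : H.c true w = 0 := by omega
    rw [h5] at hsav
    linarith
  have hc2p : 1 ≤ H.c false w := by
    by_contra hc
    have h5 : H.c false w = 0 := by omega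
    rw [h5] at hsav
    linarith
  -- the second real neighbour
  obtain ⟨u', hu'X, hfu', hru'⟩ : ∃ u' ∈ X, f u' = false ∧ H.r u' w = 1 := by
    by_contra hc
    push Not at hc
    have h5 : nr H X f false w = 0 := by
      unfold nr
      refine Finset.sum_eq_zero fun x hx => ?_
      rw [mem_filter] at hx
      rcases hok.r01 x w with h | h
      · exact h
      · exact absurd h (hc x hx.1 hx.2)
    omega
  have hne : u ≠ u' := by
    rintro rfl
    rw [hfu] at hfu'
    exact absurd hfu' (by decide)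
  have hcase : ∀ x ∈ S, x ∈ X ∨ x = w := by
    intro x hx
    by_cases hxX : x ∈ X
    · exact Or.inl hxX
    · right
      have : x ∈ S \ X := mem_sdiff.2 ⟨hx, hxX⟩
      rw [hSX] at this
      exact mem_singleton.1 this
  refine hz V P H S w u u' top.mc hwS huS (top.sub hu'X) hne (by rw [hok.rsymm]; exact top.huw)
    (by rw [hok.rsymm]; exact hru') ?_ ?_ hc1p hc2p
  · intro x hx hxu hxu'
    rcases hcase x hx with hxX | rfl
    · rw [hok.rsymm]
      rcases hok.r01 x w with h | h
      · exact h
      · exfalso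
        rcases hfx : f x with _ | _
        · have := nr_ge2 hok hxX hfx h hu'X hfu' hru' hxu'
          omega
        · have := nr_ge2 hok hxX hfx h top.hu hfu top.huw hxu
          omega
    · exact hok.r0 x
  · intro x hx
    rcases hcase x hx with hxX | rfl
    · rw [hok.msymm]
      have h5 := hok.m_nn x w
      have h6 : H.m x w ≤ 0 := by
        rcases hfx : f x with _ | _
        · have := one_le_sum (s := X.filter (fun x => f x = false)) (g := fun x => H.m x w)
            (fun y _ => hok.m_nn y w) (x := x) (by simp [hxX, hfx])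
          have e : ∑ z ∈ X.filter (fun x => f x = false), H.m z w = pr H X f false w := rfl
          simp only [e, hp2] at this
          exact this
        · have := one_le_sum (s := X.filter (fun x => f x = true)) (g := fun x => H.m x w)
            (fun y _ => hok.m_nn y w) (x := x) (by simp [hxX, hfx])
          have e : ∑ z ∈ X.filter (fun x => f x = true), H.m z w = pr H X f true w := rfl
          simp only [e, hp1] at this
          exact this
      omega
    · exact hok.m0 x

lemma union_ne {S X Y : Finset V} (hY : Y ⊆ S \ X) (hYn : Y ≠ S \ X) :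
    Y ∪ X ≠ S := by
  intro h
  apply hYn
  refine Finset.Subset.antisymm hY fun x hx => ?_
  rw [mem_sdiff, ← h, mem_union] at hx
  exact hx.1.resolve_right hx.2

theorem caseA (hkr : S_killRho) (ha1 : S_A1) (hT : S_T) (hf1 : S_force1) (hpre : S_prepay)
    (hsmall : S_small) : S_caseA := by
  intro V _ P H S X u w top hlt
  by_cases hSX : S \ X = {w}
  · exact hsmall V P H S X u w top hSX hlt
  have hg := g_pos top
  have hok := top.mc.ok
  have hd := P.hd
  have hab := P.hab
  have hD2 := P.hD2
  have hD1 := P.hD1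
  have hDa := P.hDa
  have hb := P.hb
  obtain ⟨f, p, hcol, hfu⟩ := hf1 V P H S X u w u w true top top.hu top.hw (Or.inl top.huw)
  have h1 := hT V P H S X u w f p top hcol
  obtain ⟨k0, k1, k2, k3, k4, k5, k6⟩ := hkr V P H X f hok
  have hn1 : 1 ≤ nr H X f true w := nr_ge hok top.hu hfu top.huw
  have hts : P.d * ∑ v ∈ S \ X, t1 H X f v ≤ ∑ v ∈ S \ X, sav P H X f v := by
    rw [Finset.mul_sum]
    exact Finset.sum_le_sum fun v _ => k3 v
  have ht0 : ∀ v, 0 ≤ t1 H X f v := fun v => (k2 v).2.2.2.2.1
  have ht1 : ∑ v ∈ S \ X, t1 H X f v ≤ 1 := by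
    by_contra hc
    have h2 : 2 ≤ ∑ v ∈ S \ X, t1 H X f v := by omega
    nlinarith
  have htw : 1 ≤ t1 H X f w := by
    have h2 := (k2 w).2.2.1
    have e : t1 H X f w = nr H X f true w + pr H X f true w := rfl
    omega
  have htw2 : t1 H X f w ≤ ∑ v ∈ S \ X, t1 H X f v := one_le_sum (fun v _ => ht0 v) top.hw
  refine hpre V P H S X u w f p top hcol hfu (by omega) hSX ?_ ?_
  · intro Y hY hwY hYn
    have hYS : Y ∪ X ⊆ S := Finset.union_subset (hY.trans sdiff_subset) top.sub
    have h3 := ha1 V P H S (Y ∪ X) top.mc hYS ⟨w, mem_union_left _ hwY⟩ (union_ne hY hYn)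
    have h4 : 1 ≤ ∑ v ∈ Y, t1 H X f v := htw.trans (one_le_sum (fun v _ => ht0 v) hwY)
    have h5 : P.d * 1 ≤ P.d * ∑ v ∈ Y, t1 H X f v := mul_le_mul_of_nonneg_left h4 (by omega)
    linarith
  · have h4 : ∑ v ∈ S \ X, t1 H X f v = 1 := by omega
    rw [h4]
    linarith

theorem b1 (hkr : S_killRho) (ha1 : S_A1) (hT : S_T) (hf2 : S_force2) (hpre : S_prepay) :
    S_B1 := by
  intro V _ P H S X u w u' w' top hge hu' hw' hr' hne
  have hg := g_pos top
  have hok := top.mc.ok
  have hd := P.hd
  have hab := P.hab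
  have hD2 := P.hD2
  have hD1 := P.hD1
  have hDa := P.hDa
  have hb := P.hb
  have ha3 := top.rng.ha3
  have hb2 := top.rng.hb2
  obtain ⟨f, p, hcol, hfu, hfu'⟩ := hf2 V P H S X u w u' w' top (by linarith) hu' hw'
    (Or.inl hr')
  have h1 := hT V P H S X u w f p top hcol
  obtain ⟨k0, k1, k2, k3, k4, k5, k6⟩ := hkr V P H X f hok
  have hle := top.le_a
  have hn1 : 1 ≤ nr H X f true w := nr_ge hok top.hu hfu top.huw
  have hts : P.d * ∑ v ∈ S \ X, t1 H X f v ≤ ∑ v ∈ S \ X, sav P H X f v := by
    rw [Finset.mul_sum]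
    exact Finset.sum_le_sum fun v _ => k3 v
  have ht0 : ∀ v, 0 ≤ t1 H X f v := fun v => (k2 v).2.2.2.2.1
  have hs0 : ∀ v, 0 ≤ sav P H X f v := fun v => (k2 v).2.2.2.2.2
  have ht1 : ∑ v ∈ S \ X, t1 H X f v ≤ 2 := by
    by_contra hc
    have h2 : 3 ≤ ∑ v ∈ S \ X, t1 H X f v := by omega
    nlinarith
  by_cases hww : w' = w
  · subst hww
    have huu : u' ≠ u := by
      rintro rfl
      exact hne rfl
    have h2 := nr_ge2 hok hu' hfu' hr' top.hu hfu top.huw huu
    have h3 := k5 w' (by omega)
    have h4 := (k2 w').2.2.1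
    have e : t1 H X f w' = nr H X f true w' + pr H X f true w' := rfl
    have h5 : 2 ≤ t1 H X f w' := by omega
    have h6 : sav P H X f w' ≤ ∑ v ∈ S \ X, sav P H X f v := one_le_sum (fun v _ => hs0 v) hw'
    have h7 : P.d * 2 ≤ P.d * t1 H X f w' := mul_le_mul_of_nonneg_left h5 (by omega)
    have h8 : (P.D - P.d) * 1 ≤ (P.D - P.d) * (nr H X f true w' - 1) :=
      mul_le_mul_of_nonneg_left (by omega) (by omega)
    linarith
  have htw : 1 ≤ t1 H X f w := by
    have h2 := (k2 w).2.2.1
    have e : t1 H X f w = nr H X f true w + pr H X f true w := rfl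
    omega
  have htw' : 1 ≤ t1 H X f w' := by
    have h2 := (k2 w').2.2.1
    have h3 : 1 ≤ nr H X f true w' := nr_ge hok hu' hfu' hr'
    have e : t1 H X f w' = nr H X f true w' + pr H X f true w' := rfl
    omega
  have hsum : t1 H X f w + t1 H X f w' ≤ ∑ v ∈ S \ X, t1 H X f v :=
    two_le_sum (fun v _ => ht0 v) top.hw hw' (Ne.symm hww)
  refine hpre V P H S X u w f p top hcol hfu (by omega) ?_ ?_ ?_
  · intro hc
    rw [hc, mem_singleton] at hw'
    exact hww hw'
  · intro Y hY hwY hYn
    have hYS : Y ∪ X ⊆ S := Finset.union_subset (hY.trans sdiff_subset) top.sub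
    by_cases hw'Y : w' ∈ Y
    · have h3 := ha1 V P H S (Y ∪ X) top.mc hYS ⟨w, mem_union_left _ hwY⟩ (union_ne hY hYn)
      have h4 : t1 H X f w + t1 H X f w' ≤ ∑ v ∈ Y, t1 H X f v :=
        two_le_sum (fun v _ => ht0 v) hwY hw'Y (Ne.symm hww)
      have h5 : P.d * 2 ≤ P.d * ∑ v ∈ Y, t1 H X f v :=
        mul_le_mul_of_nonneg_left (by omega) (by omega)
      linarith
    · have h3 : RB H S (Y ∪ X) := by
        refine ⟨u', mem_union_right _ hu', w', ?_, hr'⟩
        rw [mem_sdiff, mem_union] at *
        exact ⟨hw'.1, fun h => h.elim hw'Y hw'.2⟩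
      have h4 : X ⊂ Y ∪ X := by
        refine Finset.ssubset_iff_subset_ne.2 ⟨subset_union_right, fun h => ?_⟩
        have : w ∈ X := by rw [h]; exact mem_union_left _ hwY
        exact (mem_sdiff.1 top.hw).2 this
      have h5 := top.max (Y ∪ X) h4 hYS h3
      have h6 : 0 ≤ P.d * ∑ v ∈ Y, t1 H X f v :=
        mul_nonneg (by omega) (Finset.sum_nonneg fun v _ => ht0 v)
      linarith
  · have h4 : ∑ v ∈ S \ X, t1 H X f v = 2 := by omega
    rw [h4]
    linarith

end Pool.Agent.N433.DF

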